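import Pool.Agent.H93.GT.Targets

/-!
# Existence of the positions
-/

set_option autoImplicit false

open Pool.Agent.H93.GT Pool.Agent.H87.Synth Pool.Agent.H85.SC Finset
open Pool.Agent.H93.ET (sg jj iE iA T_KKL T_CUT T_BRK T_SER T_CRI)

namespace Pool.Agent.H39.GT

open Filter

theorem PP_pos (m : ℕ) : 0 < PP m :=
  Nat.mul_pos (Nat.mul_pos (pr_prime m 0).pos (pr_prime m 1).pos) (pr_prime m 2).pos

theorem QQ_pos (r : ℕ) : 0 < QQ r := by
  unfold QQ
  exact Nat.mul_pos (by positivity) (Finset.prod_pos fun j _ => PP_pos j)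

theorem Mo_pos (n : ℕ) : 0 < Mo n := by
  unfold Mo
  positivity

/-- the modulus divides the period -/
theorem Mo_dvd {n r : ℕ} (h : Nat.size n ≤ r) : 12 * Mo n ∣ 3 * QQ r := by
  unfold Mo QQ
  have h1 : 12 * 4 ^ (Nat.size n + 1) = 3 * 4 ^ (Nat.size n + 2) := by ring
  rw [h1]
  apply Nat.mul_dvd_mul_left
  exact Dvd.dvd.mul_right (pow_dvd_pow 4 (by omega)) _

theorem pex (h1 : T_PIP) (h2 : T_PRE) : T_PEX := by
  intro d hd0 hmono hsum
  obtain ⟨-, hps, hsl⟩ := h2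
  -- `d` tends to infinity
  have hdt : Tendsto d atTop atTop := by
    have h3 := hsum.tendsto_atTop_zero
    rw [tendsto_atTop_atTop]
    intro b
    have hb : (0 : ℝ) < 1 / (|b| + 1) ^ 2 := by positivity
    obtain ⟨N, hN⟩ := (Filter.eventually_atTop.1 (h3.eventually (gt_mem_nhds hb)))
    refine ⟨N, fun a ha => ?_⟩
    have h4 := hN a ha
    have h5 := hd0 a
    have h6 : (|b| + 1) ^ 2 < d a ^ 2 := by
      rwa [div_lt_div_iff₀ (by positivity) (by positivity), one_mul, one_mul] at h4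
    have h7 : |b| + 1 < d a := lt_of_pow_lt_pow_left₀ 2 h5.le h6
    have := le_abs_self b
    linarith
  -- the pipes
  have hP : ∀ n i : ℕ, ∃ X0 : ℕ, ∀ A B : ℕ, X0 ≤ A → 2 * A ≤ B →
      ∃ (N : ℕ) (b : ℕ → ℕ) (g : ℤ → ℝ) (T : ℕ → Finset ℤ), 0 < N ∧ b 0 = A ∧ b N = B ∧
        (∀ m, m < N → b m < b (m + 1) ∧ b (m + 1) ≤ 2 * b m) ∧
        (∀ m, m < N → ((100 * Mo n : ℕ) : ℝ) * ((b (m + 1) : ℝ) - b m) ≤ d (b m)) ∧
        (∀ m, m + 1 < N → ((100 * Mo n : ℕ) : ℝ) * ((b (m + 2) : ℝ) - b m) ≤ d (b m)) ∧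
        (∀ t, g t ≠ 0 → (b 0 : ℤ) ≤ 2 * |t| ∧ |t| < 2 * (b N : ℤ)) ∧
        (∀ w : ℂ, ‖w‖ = 1 →
          ‖∑ t ∈ Ioo (-(2 * (b N : ℤ))) (2 * (b N : ℤ)), (g t : ℂ) * w ^ t‖ ≤
            (1 / 2) ^ slot n i) ∧
        ∀ m, m < N → T m ⊆ Ico (b m : ℤ) (b (m + 1)) ∧ (∀ t ∈ T m, g t ≠ 0) ∧
          ∑ t ∈ T m, |g t| = 2 ^ lvl n i := fun n i =>
    h1 d hd0 hmono hsum (100 * Mo n) (Nat.mul_pos (by norm_num) (Mo_pos n)) (2 ^ lvl n i)
      ((1 / 2) ^ slot n i) (by positivity) (by positivity)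
  choose X0 hX0 using hP
  -- the positions
  have hE : ∀ r Lr : ℕ, ∃ x : ℕ, 3 * QQ r ∣ x ∧ Lr ≤ x ∧
      4 * (Lr : ℝ) ≤ d (x / (100 * 4 ^ (r + 3))) ∧
      ∀ i ∈ range (2 * r + 1), ∀ n ∈ range i, X0 n i ≤ x / (12 * Mo n) := by
    intro r Lr
    have hk : Tendsto (fun k : ℕ => 3 * QQ r * k) atTop atTop :=
      tendsto_id.const_mul_atTop' (Nat.mul_pos (by norm_num) (QQ_pos r))
    have hdiv : ∀ c : ℕ, 0 < c → Tendsto (fun k : ℕ => 3 * QQ r * k / c) atTop atTop := fun c hc =>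
      (Nat.tendsto_div_const_atTop hc.ne').comp hk
    have e1 := hk.eventually_ge_atTop Lr
    have e2 := (hdt.comp (hdiv (100 * 4 ^ (r + 3)) (by positivity))).eventually_ge_atTop
      (4 * (Lr : ℝ))
    have e3 : ∀ᶠ k : ℕ in atTop, ∀ i ∈ range (2 * r + 1), ∀ n ∈ range i,
        X0 n i ≤ 3 * QQ r * k / (12 * Mo n) := by
      rw [Filter.eventually_all_finset]
      intro i _
      rw [Filter.eventually_all_finset]
      intro n _
      exact (hdiv _ (Nat.mul_pos (by norm_num) (Mo_pos n))).eventually_ge_atTop _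
    obtain ⟨k, hk1, hk2, hk3⟩ := (e1.and (e2.and e3)).exists
    exact ⟨3 * QQ r * k, Dvd.intro _ rfl, hk1, hk2, hk3⟩
  choose f hf1 hf2 hf3 hf4 using hE
  let X : ℕ → ℕ := fun r => Nat.rec (f 0 ((6 * QQ 0) ^ 2))
    (fun r x => f (r + 1) ((6 * QQ (r + 1)) ^ 2 * x)) r
  let L : ℕ → ℕ := fun r => match r with
    | 0 => (6 * QQ 0) ^ 2
    | r + 1 => (6 * QQ (r + 1)) ^ 2 * X r
  have hXL : ∀ r, X r = f r (L r) := by
    intro r
    cases r with
    | zero => rfl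
    | succ r => rfl
  have hL1 : ∀ r, L (r + 1) = (6 * QQ (r + 1)) ^ 2 * X r := fun r => rfl
  have hLX : ∀ r, L r ≤ X r := fun r => by
    rw [hXL r]
    exact hf2 r (L r)
  have hsq : ∀ r, 0 < (6 * QQ r) ^ 2 := fun r =>
    pow_pos (Nat.mul_pos (by norm_num) (QQ_pos r)) 2
  have hLpos : ∀ r, 0 < L r := by
    intro r
    induction r with
    | zero => exact hsq 0
    | succ r ih =>
      rw [hL1]
      exact Nat.mul_pos (hsq _) (lt_of_lt_of_le ih (hLX r))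
  have hX2 : ∀ r, 2 * X r ≤ X (r + 1) := by
    intro r
    refine le_trans ?_ (hLX (r + 1))
    rw [hL1]
    apply Nat.mul_le_mul_right
    have h3 : 1 ≤ QQ (r + 1) := QQ_pos _
    nlinarith
  have hXm : ∀ r r', r < r' → 2 * X r ≤ X r' := by
    intro r r' hr
    have hmon : Monotone X := monotone_nat_of_le_succ fun r => by
      have := hX2 r
      omega
    exact (hX2 r).trans (hmon hr)
  have key : ∀ n i : ℕ, ∃ (N : ℕ) (b : ℕ → ℕ) (g : ℤ → ℝ) (T : ℕ → Finset ℤ),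
      Valid n i → i ≠ 1 →
        12 * Mo n * b 0 = X (ps n i) ∧ 12 * Mo n * b N = X (slot n i) ∧
        (∀ m, m < N → b m < b (m + 1) ∧ b (m + 1) ≤ 2 * b m) ∧
        (∀ m, m < N → 100 * (Mo n : ℝ) * ((b (m + 1) : ℝ) - b m) ≤ d (b m)) ∧
        (∀ m, m + 1 < N → 100 * (Mo n : ℝ) * ((b (m + 2) : ℝ) - b m) ≤ d (b m)) ∧
        (∀ t, g t ≠ 0 → (b 0 : ℤ) ≤ 2 * |t| ∧ |t| < 2 * (b N : ℤ)) ∧
        (∀ w : ℂ, ‖w‖ = 1 →
          ‖∑ t ∈ Ioo (-(2 * (b N : ℤ))) (2 * (b N : ℤ)), (g t : ℂ) * w ^ t‖ ≤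
            (1 / 2) ^ slot n i) ∧
        ∀ m, m < N → T m ⊆ Ico (b m : ℤ) (b (m + 1)) ∧ (∀ t ∈ T m, g t ≠ 0) ∧
          ∑ t ∈ T m, |g t| = 2 ^ lvl n i := by
    intro n i
    by_cases hv : Valid n i ∧ i ≠ 1
    · obtain ⟨p1, p2, p3, p4, p5⟩ := hps n i hv.1 hv.2
      obtain ⟨q1, q2⟩ := hsl n i hv.1
      have hM : 0 < 12 * Mo n := Nat.mul_pos (by norm_num) (Mo_pos n)
      have hdA : 12 * Mo n ∣ X (ps n i) := by
        rw [hXL]
        exact (Mo_dvd p2).trans (hf1 _ _)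
      have hdB : 12 * Mo n ∣ X (slot n i) := by
        rw [hXL]
        exact (Mo_dvd q1).trans (hf1 _ _)
      have hA : 12 * Mo n * (X (ps n i) / (12 * Mo n)) = X (ps n i) := Nat.mul_div_cancel' hdA
      have hB : 12 * Mo n * (X (slot n i) / (12 * Mo n)) = X (slot n i) := Nat.mul_div_cancel' hdB
      have hA0 : X0 n i ≤ X (ps n i) / (12 * Mo n) := by
        rw [hXL]
        exact hf4 _ _ i (Finset.mem_range.2 (by omega)) n (Finset.mem_range.2 p5)
      have hAB : 2 * (X (ps n i) / (12 * Mo n)) ≤ X (slot n i) / (12 * Mo n) := by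
        apply Nat.le_of_mul_le_mul_left _ hM
        have := hXm _ _ p1
        calc 12 * Mo n * (2 * (X (ps n i) / (12 * Mo n)))
            = 2 * (12 * Mo n * (X (ps n i) / (12 * Mo n))) := by ring
          _ = 2 * X (ps n i) := by rw [hA]
          _ ≤ X (slot n i) := this
          _ = _ := hB.symm
      obtain ⟨N, b, g, T, -, hb0, hbN, hbm, hl1, hl2, hgs, hgn, hT⟩ := hX0 n i _ _ hA0 hAB
      refine ⟨N, b, g, T, fun _ _ => ⟨?_, ?_, hbm, ?_, ?_, hgs, hgn, hT⟩⟩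
      · rw [hb0, hA]
      · rw [hbN, hB]
      · intro m hm
        have := hl1 m hm
        push_cast at this
        exact this
      · intro m hm
        have := hl2 m hm
        push_cast at this
        exact this
    · exact ⟨0, fun _ => 0, fun _ => 0, fun _ => ∅, fun hv1 hv2 => absurd ⟨hv1, hv2⟩ hv⟩
  choose N b g T hk using key
  exact ⟨{
    X := X
    L := L
    N := N
    b := b
    g := g
    T := T
    hLQ := fun r => by
      cases r with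
      | zero => exact dvd_rfl
      | succ r => exact Dvd.intro _ rfl
    hXQ := fun r => by
      rw [hXL r]
      exact hf1 r (L r)
    hL := fun r => ⟨hLpos r, hLX r⟩
    hXL := fun r => le_of_eq (hL1 r).symm
    hLd := fun r => by
      have := hf3 r (L r)
      rw [← hXL r] at this
      exact this
    hb0 := fun n i hv hi => (hk n i hv hi).1
    hbN := fun n i hv hi => (hk n i hv hi).2.1
    hbm := fun n i m hv hi hm => (hk n i hv hi).2.2.1 m hm
    ln1 := fun n i m hv hi hm => (hk n i hv hi).2.2.2.1 m hm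
    ln2 := fun n i m hv hi hm => (hk n i hv hi).2.2.2.2.1 m hm
    gsupp := fun n i t hv hi ht => (hk n i hv hi).2.2.2.2.2.1 t ht
    gnorm := fun n i w hv hi hw => (hk n i hv hi).2.2.2.2.2.2.1 w hw
    hT := fun n i m hv hi hm => (hk n i hv hi).2.2.2.2.2.2.2 m hm }⟩

end Pool.Agent.H39.GT
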